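import Pool.Agent.helper21.OD.SpecA

/-! # KZE: weight two, level one -/

set_option autoImplicit false

namespace Pool.Agent.OD

open MvPolynomial Matrix

theorem KZE_const {κ : Type} [CommRing κ] (P : Pol κ) (hP : BiHom 0 P) :
    P = C (coeff 0 P) := by
  classical
  ext d
  rw [coeff_C]
  split_ifs with h
  · rw [h]
  · by_contra hc
    have h1 := hP.1 hc
    have h2 := hP.2 hc
    rw [Finsupp.weight_apply, Finsupp.sum_fintype _ _ (fun i => by simp)] at h1 h2
    simp [Fin.sum_univ_four] at h1 h2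
    obtain ⟨ha, hb⟩ := h1
    obtain ⟨hc', hd⟩ := h2
    apply h
    symm
    apply Finsupp.ext
    intro i
    fin_cases i <;> simp <;> assumption

theorem KZE_act {t : ℤ} {κ : Type} [CommRing κ] (π : Oz t →+* κ) (g : Mat t) (P : Pol κ)
    (hP : BiHom 0 P) : act π g P = P := by
  rw [KZE_const P hP]
  exact (act π g).commutes _

def KZE_w (t : ℤ) : GO t where
  val := !![0, -1; 1, 0]
  inv := !![0, 1; -1, 0]
  val_inv := by
    rw [Matrix.mul_fin_two, Matrix.one_fin_two]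
    simp
  inv_val := by
    rw [Matrix.mul_fin_two, Matrix.one_fin_two]
    simp

theorem KZE (hMAN : MAN_stmt) : KZE_stmt := by
  intro t ht κ _ π h2 φ hφ
  have hcus : IsCus φ := ⟨hφ.zero_left, hφ.zero_right, hφ.add, hφ.smul_left, hφ.smul_right⟩
  have he1 : (![1, 0] : Vec t) ≠ 0 := by
    intro h
    have := congrFun h 0
    simp at this
  have he2 : (![0, 1] : Vec t) ≠ 0 := by
    intro h
    have := congrFun h 1
    simp at this
  have heq : ∀ γ : GO t, φ (γ.val *ᵥ ![1, 0]) (γ.val *ᵥ ![0, 1]) = φ ![1, 0] ![0, 1] := by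
    intro γ
    rw [hφ.equiv γ _ _ (by simp), one_smul]
    exact KZE_act π γ.val _ (hφ.hom _ _)
  have hw := heq (KZE_w t)
  have hw1 : (KZE_w t).val *ᵥ ![1, 0] = (![0, 1] : Vec t) := by
    show (!![0, -1; 1, 0] : Mat t) *ᵥ ![1, 0] = _
    funext i
    fin_cases i <;> simp
  have hw2 : (KZE_w t).val *ᵥ ![0, 1] = (-1 : Oz t) • (![1, 0] : Vec t) := by
    show (!![0, -1; 1, 0] : Mat t) *ᵥ ![0, 1] = _
    funext i
    fin_cases i <;> simp
  rw [hw1, hw2, hφ.smul_right (-1) _ _ (by simp)] at hw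
  have h11 := hφ.add ![1, 0] ![1, 0] ![1, 0] he1 he1 he1
  have h11' : φ ![1, 0] ![1, 0] = 0 := by
    have := add_eq_left.1 h11
    exact this
  have h12 := hφ.add ![1, 0] ![0, 1] ![1, 0] he1 he2 he1
  rw [h11', hw] at h12
  have hg : φ ![1, 0] ![0, 1] = 0 := by
    have hc := KZE_const _ (hφ.hom ![1, 0] ![0, 1])
    rw [hc, ← C_add] at h12
    have h3 : coeff 0 (φ ![1, 0] ![0, 1]) + coeff 0 (φ ![1, 0] ![0, 1]) = 0 :=
      C_injective (Fin 4) κ (by rw [h12, C_0])
    have h4 : (2 : κ) * coeff 0 (φ ![1, 0] ![0, 1]) = 0 := by rw [two_mul]; exact h3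
    have h5 := (mul_eq_zero.1 h4).resolve_left h2
    rw [hc, h5, C_0]
  have h0 := hMAN t ht φ hcus ⊥ (fun γ => by
    rw [heq γ, hg]
    exact AddSubgroup.mem_bot.2 rfl)
  funext u v
  exact AddSubgroup.mem_bot.1 (h0 u v)

end Pool.Agent.OD
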